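import Pool.Agent.W594.SYZ.Ex

set_option autoImplicit false

/-!
# A primitive symplectic torus quotient with a line bundle of order two

`Cn d`, `Aff d`, `latt`, `IsTorusQuotient`, `IsForm`, `IsPrimitiveSymplectic`, `LineBundle`,
`LineBundle.pow`, `LineBundle.IsSection` and `LineBundle.IsTrivial` are defined in
`Pool.Agent.W594.SYZ.Defs`.
-/

namespace Pool.Agent.Results.MP_63735c_ag.TorsionLineBundle

open Pool.Agent.W594.SYZ

/-- There are a primitive symplectic variety `X = ℂ^4 / Γ` of dimension four and a line bundle `L` on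
`X` that is not isomorphic to `O_X` and has `L ⊗ L ≅ O_X` (so that `c_1(L) = 0` in `H^2(X, ℝ)`, `L` is
nef and `q_X(L) = 0`), such that for every `k` the space of sections of `L^k` has dimension at most
one (so that no power of `L` is the pullback of an ample line bundle from a positive-dimensional
base). -/
theorem result :
    ∃ Γ : Subgroup (Aff 4), IsPrimitiveSymplectic Γ ∧ ∃ L : LineBundle Γ,
      ¬ L.IsTrivial ∧ (L.pow 2).IsTrivial ∧
      ∀ (k : ℕ) (s t : Cn 4 → ℂ), (L.pow k).IsSection s → (L.pow k).IsSection t →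
        ∃ a b : ℂ, (a ≠ 0 ∨ b ≠ 0) ∧ ∀ v, a * s v + b * t v = 0 := by
  refine ⟨Ex.Γ, Ex.isPrimitiveSymplectic, Ex.L, Ex.L_not_trivial, Ex.L_sq_trivial, ?_⟩
  intro k s t hs ht
  by_cases h : s 0 = 0
  · refine ⟨1, 0, Or.inl one_ne_zero, fun v => ?_⟩
    rw [Ex.section_const k hs v 0, h]; ring
  · refine ⟨t 0, -s 0, Or.inr (neg_ne_zero.2 h), fun v => ?_⟩
    rw [Ex.section_const k hs v 0, Ex.section_const k ht v 0]; ring

end Pool.Agent.Results.MP_63735c_ag.TorsionLineBundle
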