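import Pool.Agent.W594.SYZ.TQ6

set_option autoImplicit false

/-!
# The SYZ conjecture for primitive symplectic quotients of complex tori

`latt`, `IsTorusQuotient`, `IsForm`, `IsPrimitiveSymplectic`, `LineBundle`, `LineBundle.pow` and
`LineBundle.IsTrivial` are defined in `Pool.Agent.W594.SYZ.Defs2`; `IsHermitian`, `IsChernForm`,
`IsNefForm`, `IsPositiveForm`, `IsDegenerateForm`, `IsLagrangianFibration` and `Induces` in
`Pool.Agent.W594.SYZ.TQDefs`.
-/

namespace Pool.Agent.Results.MP_63735c_ag.TorusQuotients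

open Pool.Agent.W594.SYZ2

/-- Let `X = V / Γ` be a primitive symplectic variety that is the quotient of a complex torus of any
dimension by any finite group, and let `L` be a nef line bundle on `X` with `q_X(L) = 0`, that is, the
Chern form `H` of `L` is positive semidefinite and degenerate.  Then `L` is torsion if and only if
`H = 0`, and if `H ≠ 0` then `L` induces a holomorphic Lagrangian fibration `X → B`: the kernel of `H`
is the kernel of a linear map `π` from `V` onto a vector space `ℂ^n`, `2 n = dim V`, that descends to a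
holomorphic Lagrangian fibration `f` of `X` over a torus quotient `B = ℂ^n / Δ`, and a power `L^m`,
`m ≥ 1`, is isomorphic to `f^* A` for an ample line bundle `A` on `B`. -/
theorem result {V : Type*} [NormedAddCommGroup V] [NormedSpace ℂ V] [FiniteDimensional ℂ V]
    (Γ : Subgroup (V ≃ᵃ[ℂ] V)) (hΓ : IsPrimitiveSymplectic Γ) (L : LineBundle Γ)
    (H : V → V → ℂ) (hc : IsChernForm L H) (hn : IsNefForm H) (hd : IsDegenerateForm H) :
    ((∀ v w, H v w = 0) ↔ ∃ m : ℕ, 1 ≤ m ∧ (L.pow m).IsTrivial) ∧
    ((∃ v w, H v w ≠ 0) → ∃ (n : ℕ) (Δ : Subgroup ((Fin n → ℂ) ≃ᵃ[ℂ] (Fin n → ℂ)))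
      (π : V →ₗ[ℂ] (Fin n → ℂ)), (∀ v, π v = 0 ↔ ∀ w, H v w = 0) ∧
        IsLagrangianFibration Γ Δ π ∧ Induces L Δ π) :=
  TQ.main hΓ L H hc hn hd

end Pool.Agent.Results.MP_63735c_ag.TorusQuotients
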